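import Pool.Agent.Results.MP_a4658c_nt.AlmostAllDescent
import Pool.Agent.U513.AP.Sparse
import Pool.Agent.U513.AP.Cum

/-!
# The Kakutani `5x+1` map near integral polynomials at simultaneous approximations

The starting file bounds the number of the `n ≤ X` all of whose iterates are at least `Y`. Here: for all points `α` outside of a set of
small Hausdorff dimension, ALL natural numbers near ALL integral polynomials at ALL approximations of `α` with a large denominator have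
an iterate below `n ^ ρ`, for every `ρ > 0`.
-/

set_option autoImplicit false

open Finset

namespace Pool.Agent.Results.MP_a4658c_nt.Approximations

open Pool.Agent.U513.AP

/-- There is `κ > 0` such that for all `ρ > 0` with `κ ρ ≤ 1` the property some iterate of `n` under the `5x+1` map is less than
`n ^ ρ` holds at approximations outside of exceptional sets of exponent `1 - κ ρ`. -/
theorem result : ∃ κ : ℝ, 0 < κ ∧ ∀ ρ : ℝ, 0 < ρ → κ * ρ ≤ 1 → AtApproximations (ι := Unit) (1 - κ * ρ)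
    (fun _ n => ∃ k : ℕ, ((AlmostAllDescent.C^[k] n : ℕ) : ℝ) < (n : ℝ) ^ ρ) := by
  classical
  obtain ⟨A, κ, hκ, h, -⟩ := AlmostAllDescent.result
  refine ⟨κ, hκ, fun ρ hρ hκρ => sparse_law (by linarith) _ fun _ ε' hε' => ?_⟩
  have hκρ0 : 0 < κ * ρ := mul_pos hκ hρ
  obtain ⟨ε, hε⟩ : ∃ ε : ℝ, ε = min ε' (κ * ρ) := ⟨_, rfl⟩
  have hε0 : 0 < ε := by rw [hε]; exact lt_min hε' hκρ0
  have hε1 : ε ≤ κ * ρ := by rw [hε]; exact min_le_right _ _
  obtain ⟨B, hB⟩ : ∃ B : Set ℕ, B = {n : ℕ | ¬ ∃ k : ℕ, ((AlmostAllDescent.C^[k] n : ℕ) : ℝ) < (n : ℝ) ^ ρ} := ⟨_, rfl⟩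
  obtain ⟨C', hC'⟩ := cum_halves (B := B) (s := 1 - κ * ρ + ε) (C := |A| * 2 ^ (κ * ρ) * (16 / ε) ^ 16) (by linarith)
    (by linarith) (by positivity) 2 (fun N hN => by
      have hNr : (2 : ℝ) ≤ N := by exact_mod_cast hN
      have hN0 : (0 : ℝ) < N := by linarith
      have hY : 1 ≤ ((N : ℝ) / 2) ^ ρ := Real.one_le_rpow (by linarith) hρ.le
      have h1 := h N (((N : ℝ) / 2) ^ ρ) hNr hY
      have hfin : {n : ℕ | 1 ≤ n ∧ (n : ℝ) ≤ N ∧ ∀ k : ℕ, ((N : ℝ) / 2) ^ ρ ≤ ((AlmostAllDescent.C^[k] n : ℕ) : ℝ)}.Finite :=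
        (Set.finite_Iic N).subset fun n hn => by exact_mod_cast hn.2.1
      have h2 : ({b : ℕ | b ∈ B ∧ 1 ≤ b ∧ b ≤ N ∧ N < 2 * b}.ncard : ℝ) ≤
          ({n : ℕ | 1 ≤ n ∧ (n : ℝ) ≤ N ∧ ∀ k : ℕ, ((N : ℝ) / 2) ^ ρ ≤ ((AlmostAllDescent.C^[k] n : ℕ) : ℝ)}.ncard : ℝ) := by
        refine Nat.cast_le.2 (Set.ncard_le_ncard ?_ hfin)
        rintro n ⟨hnB, g1, g2, g3⟩
        rw [hB] at hnB
        refine ⟨g1, by exact_mod_cast g2, fun k => ?_⟩
        have g4 : (n : ℝ) ^ ρ ≤ ((AlmostAllDescent.C^[k] n : ℕ) : ℝ) := not_lt.1 fun hlt => hnB ⟨k, hlt⟩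
        have g5 : (N : ℝ) ≤ 2 * n := by exact_mod_cast g3.le
        exact (Real.rpow_le_rpow (by linarith) (by linarith) hρ.le).trans g4
      have h3 : Real.log N ^ 16 ≤ (16 / ε) ^ 16 * (N : ℝ) ^ ε := by
        have h4 : Real.log N ≤ (16 / ε) * (N : ℝ) ^ (ε / 16) := by
          have h5 := Real.log_le_rpow_div hN0.le (show 0 < ε / 16 by positivity)
          refine h5.trans (le_of_eq ?_)
          field_simp
        calc Real.log N ^ 16 ≤ ((16 / ε) * (N : ℝ) ^ (ε / 16)) ^ 16 :=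
              pow_le_pow_left₀ (Real.log_nonneg (by linarith)) h4 16
          _ = _ := by
              rw [mul_pow, ← Real.rpow_natCast ((N : ℝ) ^ (ε / 16)) 16, ← Real.rpow_mul hN0.le]
              congr 2
              push_cast
              ring
      have h6 : (((N : ℝ) / 2) ^ ρ) ^ (-κ) = 2 ^ (κ * ρ) * (N : ℝ) ^ (-(κ * ρ)) := by
        rw [← Real.rpow_mul (by positivity), Real.div_rpow hN0.le (by norm_num), show ρ * -κ = -(κ * ρ) by ring,
          Real.rpow_neg (by norm_num : (0 : ℝ) ≤ 2)]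
        field_simp
      have hl0 : 0 ≤ Real.log N ^ 16 := pow_nonneg (Real.log_nonneg (by linarith)) _
      calc ({b : ℕ | b ∈ B ∧ 1 ≤ b ∧ b ≤ N ∧ N < 2 * b}.ncard : ℝ)
          ≤ A * N * Real.log N ^ 16 * (((N : ℝ) / 2) ^ ρ) ^ (-κ) := h2.trans h1
        _ ≤ |A| * N * Real.log N ^ 16 * (((N : ℝ) / 2) ^ ρ) ^ (-κ) := by
            have g1 : 0 ≤ N * Real.log N ^ 16 * (((N : ℝ) / 2) ^ ρ) ^ (-κ) := by positivity
            have g2 := mul_le_mul_of_nonneg_right (le_abs_self A) g1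
            nlinarith
        _ ≤ |A| * N * ((16 / ε) ^ 16 * (N : ℝ) ^ ε) * (((N : ℝ) / 2) ^ ρ) ^ (-κ) := by
            apply mul_le_mul_of_nonneg_right _ (by positivity)
            exact mul_le_mul_of_nonneg_left h3 (by positivity)
        _ = |A| * 2 ^ (κ * ρ) * (16 / ε) ^ 16 * (N : ℝ) ^ (1 - κ * ρ + ε) := by
            rw [h6, show 1 - κ * ρ + ε = 1 + (-(κ * ρ)) + ε by ring, Real.rpow_add hN0, Real.rpow_add hN0, Real.rpow_one]
            ring)
  refine ⟨max C' 0, 1, fun X hX => ?_⟩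
  have hX1 : (1 : ℝ) ≤ X := by exact_mod_cast hX
  obtain ⟨g1, g2⟩ := hC' X hX1
  have hsub : {n : ℕ | 1 ≤ n ∧ n ≤ X ∧ ¬ ∃ k : ℕ, ((AlmostAllDescent.C^[k] n : ℕ) : ℝ) < (n : ℝ) ^ ρ} ⊆
      {b : ℕ | b ∈ {b : ℕ | 1 ≤ b ∧ b ∈ B} ∧ (b : ℝ) ≤ X} := by
    rintro n ⟨h1, h2, h3⟩
    exact ⟨⟨h1, by rw [hB]; exact h3⟩, by exact_mod_cast h2⟩
  refine (Nat.cast_le.2 (Set.ncard_le_ncard hsub g1)).trans (g2.trans ?_)
  refine mul_le_mul (le_max_left _ _) (Real.rpow_le_rpow_of_exponent_le hX1 ?_) (by positivity) (le_max_right _ _)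
  rw [hε]
  linarith [min_le_left ε' (κ * ρ)]

end Pool.Agent.Results.MP_a4658c_nt.Approximations
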